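import Pool.Agent.W_4ce76a_h14.Rel

/-!
# `F_p(t)^h` and `F_p((t))` satisfy the same formulas of a large fragment

* `TF14.L p`, `TF14.OL p`: the field of formal Laurent series over `ZMod p` and its ring of power series.
* `TF14.Kt p`, `TF14.OKt p`, `TF14.inc p`: the relative algebraic closure of `F_p(t)` in it, with the induced valuation ring, and the inclusion.
* `TF14.Rel l σ`: a relation between `l` sets and elements indexed by `σ` in every field with a valuation ring.
* `TF14.QForm`, `TF14.GForm`, `TF14.BForm`: the relations defined by the formulas of the classes.

Outline of the proof.  A formula without ball variables is shown to be preserved by embeddings of henselian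
fields with `p`-basis `t`, by induction on the formula; in the step of the ball quantifier the formula is first replaced
by an equivalent one without ball quantifiers (ultraproducts), then it is evaluated at a point `x` of an ultrapower such that all
its coordinates with respect to the `p ^ m`-bases are algebraically independent; the field generated by all these coordinates
is relatively separable (MacLane), so that the implicit function theorem applies to the witnesses.
-/

set_option autoImplicit false

namespace Pool.Agent.Results.MP_4ce76a_lc.BallFragment

/-- `F_p(t)^h` and `F_p((t))` satisfy the same formulas of the class `BForm`, with parameters `a` and balls with centres `z` and radii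
given by `c` in `F_p(t)^h`. -/
theorem result (p : ℕ) [Fact p.Prime] (l n : ℕ) (R : TF14.Rel l (Fin n)) (h : TF14.BForm R)
    (z c : Fin l → TF14.Kt p) (hc : ∀ j, c j ≠ 0) (a : Fin n → TF14.Kt p) :
    R (TF14.Kt p) (TF14.OKt p) (fun j => TF14.bl (TF14.OKt p) (z j) (c j)) a ↔
      R (TF14.L p) (TF14.OL p) (fun j => TF14.bl (TF14.OL p) (TF14.inc p (z j)) (TF14.inc p (c j)))
        (fun i => TF14.inc p (a i)) :=
  TF14.elem_kt p h z c hc a

end Pool.Agent.Results.MP_4ce76a_lc.BallFragment
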