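import Pool.Agent.W_4ce76a_h43.SynF

/-!
# `F_p(t)^h` and `F_p((t))`: prenex formulas with at most two quantifiers behind the first block

* `TF14.L p`, `TF14.OL p`: the field of formal Laurent series over `ZMod p` and its ring of power series.
* `TF14.Kt p`, `TF14.OKt p`, `TF14.inc p`: the relative algebraic closure of `F_p(t)` in it (that is `F_p(t)^h`), with the
  induced valuation ring, and the inclusion.
* `TF45.Form K n`: the first-order formulas of the language of valued fields with parameters in `K` in the (free or bound)
  variables `x_0, ..., x_(n-1)`; `Qf`: quantifier-free.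
* `TF43.qt b v φ`: `∃ x_v, φ` or `∀ x_v, φ`; `TF43.qts b vs φ`: a block of quantifiers of the same kind.
* `TF43.Nea`: the class of formulas.

Outline of the proof.  A tuple `c'` of `L p` is near a tuple `c` if it is close to it and if the coordinates of `c'` with
respect to the `p ^ m`-basis `1, t, ..., t ^ (p ^ m - 1)` satisfy all algebraic relations over `F_p(t)^h` of those of `c`.  The
formulas of the class are locally constant with respect to these neighbourhoods, and every neighbourhood contains tuples of
`F_p(t)^h`.  The new point is that `∀ y ∃ z θ(x, y, z)` is locally constant.  Let it hold at `c`, and let `c_n` tend to `c`,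
`y_n = y + s_n` with `s_n → 0`.  One chooses `σ_n` close to `s_n` and far from all sets `γ L ^ p`, `γ` algebraic over the
parameters, and follows the points `(σ_n, z_n)`, where `z_n` is a witness for `y + σ_n`, through blow ups of the plane, together with
the first coordinate `S`, which has the form `X ^ A Y ^ B u` with a unit `u`.  If the family of the polynomials of `θ` and `S`
has normal crossings and `p` does not divide both `A` and `B` then Hensel's lemma moves the points to points over `c_n` with
`S = s_n`.  If `p` divides the exponent of the exceptional curve at a point where `S` has no other component, then the choice of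
`σ_n` implies that the distance to the centre is infinitely larger than the distance to the exceptional curve; the truth value of `θ`
depends there only on the lexicographically ordered pair of exponents, and again there are suitable points over `c_n`.
-/

set_option autoImplicit false

namespace Pool.Agent.Results.MP_4ce76a_lc.PrenexFormulas

/-- `F_p(t)^h` and `F_p((t))` satisfy, at all points of `F_p(t)^h`, the same formulas with parameters in `F_p(t)^h` of the following
kinds: all prenex formulas `Q x_v1, ..., Q x_vr, Q' x_z, Q'' x_u, θ` with quantifiers `Q`, `Q'`, `Q''`, every `r`, and `θ`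
quantifier-free; all formulas in two variables (free or bound, any quantifier depth); all formulas `∃ x_v1, ..., ∃ x_vr, φ` with `φ` in
the class `Nea`. -/
theorem result (p : ℕ) [Fact p.Prime] :
    (∀ (n : ℕ) (θ : TF45.Form (TF14.Kt p) n), θ.Qf → ∀ (b b' b'' : Bool) (vs : List (Fin n))
      (z u : Fin n) (s : Fin n → TF14.Kt p),
      (TF43.qts b vs (TF43.qt b' z (TF43.qt b'' u θ))).Holds (RingHom.id (TF14.Kt p))
          (TF14.OKt p) s ↔
        (TF43.qts b vs (TF43.qt b' z (TF43.qt b'' u θ))).Holds (TF14.inc p) (TF14.OL p)
          fun i => TF14.inc p (s i)) ∧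
    (∀ (φ : TF45.Form (TF14.Kt p) 2) (s : Fin 2 → TF14.Kt p),
      φ.Holds (RingHom.id (TF14.Kt p)) (TF14.OKt p) s ↔
        φ.Holds (TF14.inc p) (TF14.OL p) fun i => TF14.inc p (s i)) ∧
    ∀ (n : ℕ) (φ : TF45.Form (TF14.Kt p) n), TF43.Nea φ → ∀ (vs : List (Fin n))
      (s : Fin n → TF14.Kt p),
      (TF45.Form.exs vs φ).Holds (RingHom.id (TF14.Kt p)) (TF14.OKt p) s ↔
        (TF45.Form.exs vs φ).Holds (TF14.inc p) (TF14.OL p) fun i => TF14.inc p (s i) :=
  ⟨fun _ _ hθ b b' b'' vs z u s => TF43.elem_prenex p hθ b b' b'' vs z u s,
    fun φ s => TF43.elem_nea p (TF43.nea_two φ) [] s,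
    fun _ _ h vs s => TF43.elem_nea p h vs s⟩

end Pool.Agent.Results.MP_4ce76a_lc.PrenexFormulas
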